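import Pool.Agent.N858.PB.Pull
import Pool.Agent.N858.DS.Final3

set_option autoImplicit false

open Finset Polynomial Pool.Agent.W432.PC Pool.Agent.Y227.SS Pool.Agent.R927
open Pool.Agent.W77.IM (CoordRing)
open Pool.Agent.N858.PC Pool.Agent.N858.R3 Pool.Agent.N858.R4 Pool.Agent.N858.PB Pool.Agent.N858.DS

/-!
# Flat bundles on curves which contain the pull-back of a system with index of rigidity at least zero

Let `C` be a curve over a finitely generated field of characteristic zero with a finite map
`x : C → ℙ¹`, and let `(E, ∇)` be a flat bundle on `C` (or on an open part of `C`) whose generic fibre
contains the pull-back of an irreducible Fuchsian system `d/dx - ∑ j, A j / (x - α j)` on `ℙ¹` with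
rational exponents, of any rank and with any number of singular points, whose index of rigidity is at
least zero (the system is rigid, or its moduli space is a surface) or whose exponents have large
multiplicities, and whose exponents satisfy a condition on their denominators (for example, it is
enough that a common denominator is a prime number). (If `x` is ramified to orders divisible by the
common denominator over the singular points, the pull-back of the system is, up to a twist by a
connection of rank one, a flat bundle without singularities, so `C` may be a proper curve of any large
genus.) Neither `E` nor the pull-back are assumed to be irreducible.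

Proof. If the `p`-curvature of `E` vanishes at `𝔪`, that of the system vanishes at `𝔪`, for almost all `𝔪`
(`R927/PB2`), so the theorem on systems (`N858/DS/Final3`, used for the starting result
`MP_5e5ff1_ag.IndexNonnegative`) applies.
-/

namespace Pool.Agent.Results.MP_0707f5_ag.PullbackIndexNonnegative

universe u v w

/-- For every rank `r ≥ 2` and every number `n` of finite singular points there are `ε > 0` and `B` with
the following property.

Let `R` be a domain of characteristic zero, of finite type over `ℤ`, let `F` be a field containing
`R` (the function field of a curve) with an `R`-linear derivation `δ` and `δ x = 1`, let `V` be a vector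
space over `F` with a connection `∇`, let `T ∈ R[x]` be nonzero and let `E ⊆ V` be a finitely generated
`R[x, 1/T]`-module which is stable under `∇` and generates `V` over the rational functions of `x`
(`IsModel`; a flat bundle on the part `T ≠ 0` of the curve, spread out over `Spec R`). Assume that `V`
contains the pull-back (`HasPullback`) of the system `d/dx - ∑ j, A j / (x - α j)` of rank `r`, where
`α 0, ..., α (n - 1)` are elements of `R` with invertible differences, that the system is irreducible
over every field containing `R` (`AbsIrreducible`), and that it has rational exponents `lam j l`
(eigenvalues of `A j`) and `phi l` (eigenvalues of `∑ j, A j`), with common denominator `N`. Let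
`e = allExp lam phi` be the exponents at all `n + 1` points. Assume

* (denominators) one of the following: (`RoughSums`) the differences of exponents at the same point and
the sums of exponents, one for each point, have a common denominator all of whose prime factors are
greater than `2 r`; or (`MildDen`) if `δ` is the difference of two exponents at a point, not an integer,
of denominator `d`, and `D` is a sum of exponents, one for each point, including the second of the two,
then `d D` is an integer or its denominator is divisible by a prime power `P` for which
`r ⌈P / d⌉ < φ(P)`; or (`Rough`) the differences alone have a common denominator without prime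
factors `≤ B`;

* (multiplicities) that (`IndexNonneg`) the sum of the squares of the multiplicities of the exponents,
modulo the integers, at the `n + 1` points is at least `(n - 1) r ^ 2`, or that (`LargeMult`) there are
two exponents at one point, not congruent modulo the integers, and exponents at all other points except
one, whose multiplicities have a sum greater than `(n - 1) r`.

Then one of the following holds.

(a) (`ExcType`) There are exactly three points where the exponents are not congruent to one another, and
all multiplicities there are `r / 3`, or exactly four such points, and all multiplicities there are
`r / 2`; moreover `LargeMult` does not hold; if the differences have a common denominator without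
prime factors `≤ B`, then `r ≤ 3` and the exponents are special (`Refined`); and if no two exponents
at the same point differ by a nonzero integer (`NoShift`), then `r ≤ 3`.

(b) There are a set of at least `ε * φ(N)` residue classes modulo `N`, prime to `N`, and a nonzero `g`
in `R` such that the `p`-curvature of `E` is nonzero at all the closed points of `Spec R[1/g]` whose
residue characteristic is a large prime in one of these classes (`BadModelClasses`). In particular (H)
fails for `(E, ∇)`. -/
theorem result (n r : ℕ) (hr : 1 < r) :
    ∃ (ε : ℝ) (B : ℕ), 0 < ε ∧
      ∀ (R : Type u) [CommRing R] [IsDomain R] [CharZero R] [Algebra.FiniteType ℤ R]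
        (F : Type v) [Field F] [Algebra R F] (δ : Derivation R F F) (x : F)
        (V : Type w) [AddCommGroup V] [Module F V] (nabla : V →+ V) (T : R[X])
        (E : Submodule (CoordRing x T R) V) (α : Fin n → R)
        (A : Fin n → Matrix (Fin r) (Fin r) R) (v : Fin r → V)
        (lam : Fin n → Fin r → ℚ) (phi : Fin r → ℚ) (N : ℕ),
        Function.Injective (algebraMap R F) → δ x = 1 → T ≠ 0 → IsModel x T nabla E →
        HasPullback α A δ x nabla v →
        (∀ i j, i ≠ j → IsUnit (α i - α j)) → AbsIrreducible α A →
        (∀ j, HasExponents (A j) (lam j)) → HasExponents (∑ j, A j) phi →
        0 < N → (∀ j l, ∃ m : ℤ, (N : ℚ) * lam j l = m) → (∀ l, ∃ m : ℤ, (N : ℚ) * phi l = m) →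
        (RoughSums (2 * r) (allExp lam phi) ∨ MildDen (allExp lam phi) ∨
          Rough B (allExp lam phi)) →
        (LargeMult (allExp lam phi) ∨ IndexNonneg (allExp lam phi)) →
        (ExcType (allExp lam phi) ∧ ¬ LargeMult (allExp lam phi) ∧
          (Rough B (allExp lam phi) → r ≤ 3 ∧ Refined (allExp lam phi)) ∧
          (NoShift (allExp lam phi) → r ≤ 3)) ∨
          (BadModelClasses nabla E N ε ∧ ¬ HypH nabla E) := by
  obtain ⟨ε, B, hε, h⟩ := all_sys4.{u} n r hr
  refine ⟨ε, B, hε, ?_⟩
  intro R _ _ _ _ F _ _ δ x V _ _ nabla T E α A v lam phi N hRF hx hT hE hpb hα hA hlam hphi hN hNlam
    hNphi hR hC
  exact pull hpb hRF hx hT hE (h R α A lam phi N hα hA hlam hphi hN hNlam hNphi hR hC)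

end Pool.Agent.Results.MP_0707f5_ag.PullbackIndexNonnegative
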