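import Pool.Agent.N858.PB.Pull
import Pool.Agent.Y227.RT.Final

set_option autoImplicit false

open Polynomial Pool.Agent.W432.PC Pool.Agent.W432.TC Pool.Agent.Y227.SS Pool.Agent.Y227.RT
open Pool.Agent.W77.IM (CoordRing)
open Pool.Agent.R927 Pool.Agent.N858.PB

/-!
# Flat bundles on curves which contain the pull-back of an irreducible system of rank two

Let `C` be a curve over a finitely generated field of characteristic zero with a finite map
`x : C → ℙ¹`, and let `(E, ∇)` be a flat bundle on `C` (or on an open part of `C`) whose generic fibre
contains the pull-back of an irreducible Fuchsian system `d/dx - ∑ j, A j / (x - α j)` of rank two on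
`ℙ¹` with `n + 1` singular points and rational exponents; the genus, the degree and the branch points
of `x` are arbitrary and the rank of `E` is arbitrary. (If `x` is ramified to orders divisible by a
common denominator of the exponents over the singular points, the pull-back of the system is, up to a
twist by a connection of rank one, a flat bundle without singularities, so `C` may be a proper curve of
any large genus.) The theorem determines all the families of exponents of codimension at most two for
which (H) for `(E, ∇)` is not excluded.

Proof. If the `p`-curvature of `E` vanishes at `𝔪`, that of the system vanishes at `𝔪`, for almost all `𝔪`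
(`R927/PB2`), so our theorem on systems (the starting result `MP_ba03d2_ag.RankTwoFamilies`) applies.
-/

namespace Pool.Agent.Results.MP_0707f5_ag.PullbackRankTwo

universe u v w

/-- For every number `n ≥ 1` of finite singular points there are `ε > 0` and a finite set `𝒟` of
torsion cosets of codimension at least three (three independent relations) in the torus
`(ℝ/ℤ) ^ (n + 1)` of the exponent differences, with the following property.

Let `R` be a domain of characteristic zero, of finite type over `ℤ`, let `F` be a field containing
`R` (the function field of a curve) with an `R`-linear derivation `δ` and `δ x = 1`, let `V` be a vector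
space over `F` with a connection `∇`, let `T ∈ R[x]` be nonzero and let `E ⊆ V` be a finitely generated
`R[x, 1/T]`-module which is stable under `∇` and generates `V` over the rational functions of `x`
(`IsModel`; a flat bundle on the part `T ≠ 0` of the curve, spread out over `Spec R`). Assume that `V`
contains the pull-back (`HasPullback`) of the system `d/dx - ∑ j, A j / (x - α j)` of rank two, where
`α 0, ..., α (n - 1)` are elements of `R` with invertible differences, that the system is irreducible
over every field containing `R`, and that it has rational exponents `lam`, `phi` of common denominator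
`N`. Let `θ = theta lam phi` be the differences of the exponents at the `n + 1` singular points. Then one
of the following holds:

* (`Splits`) the singular points are divided into two complementary sets, each with at least two
  points, such that, for suitable signs, the sums of the `± θ i` over both sets are integers;
* (`HalfSums`) there are two disjoint nonempty sets of singular points, together not all of them,
  such that, for suitable signs, the sums of the `± θ i` over both sets are in `1/2 + ℤ` (for `n = 2`
  this is the dihedral family of Schwarz's list);
* `θ` is on one of the cosets in `𝒟`;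
* there are a set of at least `ε * φ(N)` residue classes modulo `N`, prime to `N`, and a nonzero `g` in
  `R` such that the `p`-curvature of `E` is nonzero at all the closed points of `Spec R[1/g]` whose
  residue characteristic is a large prime in one of these classes (`BadModelClasses`), and (H) fails for
  `(E, ∇)`. -/
theorem result (n : ℕ) (hn : 1 ≤ n) :
    ∃ (ε : ℝ) (𝒟 : Finset (AddSubgroup (Option (Fin n) → ℤ) × (Option (Fin n) → ℚ))), 0 < ε ∧
      (∀ C ∈ 𝒟, ∃ k : Fin 3 → Option (Fin n) → ℤ, LinearIndependent ℤ k ∧ ∀ i, k i ∈ C.1) ∧
      ∀ (R : Type u) [CommRing R] [IsDomain R] [CharZero R] [Algebra.FiniteType ℤ R]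
        (F : Type v) [Field F] [Algebra R F] (δ : Derivation R F F) (x : F)
        (V : Type w) [AddCommGroup V] [Module F V] (nabla : V →+ V) (T : R[X])
        (E : Submodule (CoordRing x T R) V) (α : Fin n → R)
        (A : Fin n → Matrix (Fin 2) (Fin 2) R) (v : Fin 2 → V)
        (lam : Fin n → Fin 2 → ℚ) (phi : Fin 2 → ℚ) (N : ℕ),
        Function.Injective (algebraMap R F) → δ x = 1 → T ≠ 0 → IsModel x T nabla E →
        HasPullback α A δ x nabla v →
        (∀ i j, i ≠ j → IsUnit (α i - α j)) →
        (∀ j, HasExponents (A j) (lam j)) → HasExponents (∑ j, A j) phi →
        0 < N → (∀ j l, ∃ m : ℤ, (N : ℚ) * lam j l = m) → (∀ l, ∃ m : ℤ, (N : ℚ) * phi l = m) →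
        AbsIrreducible α A →
          (Splits (theta lam phi) ∨ HalfSums (theta lam phi) ∨
            ∃ C ∈ 𝒟, InCoset C.1 C.2 (fun i => (theta lam phi i : ℝ))) ∨
            (BadModelClasses nabla E N ε ∧ ¬ HypH nabla E) := by
  obtain ⟨ε, 𝒟, hε, h𝒟, h⟩ := rank_two.{u} n hn
  refine ⟨ε, 𝒟, hε, h𝒟, ?_⟩
  intro R _ _ _ _ F _ _ δ x V _ _ nabla T E α A v lam phi N hRF hx hT hE hpb hα hlam hphi hN hNlam
    hNphi hA
  exact pull hpb hRF hx hT hE (h R α A lam phi N hα hlam hphi hN hNlam hNphi hA)

end Pool.Agent.Results.MP_0707f5_ag.PullbackRankTwo
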