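import Pool.Agent.N858.PB.Pull
import Pool.Agent.Y227.SS.Uniform

set_option autoImplicit false

open Polynomial Pool.Agent.W432.PC Pool.Agent.W432.TC Pool.Agent.Y227.SS Pool.Agent.R927
open Pool.Agent.W77.IM (CoordRing)
open Pool.Agent.N858.PB

/-!
# Flat bundles on curves which contain a pull-back: a uniform dichotomy with stable parabolic bundles

Let `C` be a curve over a finitely generated field of characteristic zero with a finite map
`x : C → ℙ¹`, and let `(E, ∇)` be a flat bundle on `C` (or on an open part of `C`) whose generic fibre
contains the pull-back of a Fuchsian system `d/dx - ∑ j, A j / (x - α j)` on `ℙ¹` of rank `r` with any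
`n + 1` singular points and arbitrary rational exponents. If (H) holds for `(E, ∇)`, or only if the
`p`-curvatures of `E` do not fail to vanish for a proportion `ε = ε(n, r)` of the residue classes of
primes, then all the conjugates of the exponents of the system are the weights of semistable parabolic
bundles of parabolic degree zero on the projective line (of stable ones, if the system is irreducible).
For unitary local systems this is, by the theorem of Mehta and Seshadri, the condition for the existence
of unitary local systems with these local monodromies, as it should be for the pull-back of a system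
with finite monodromy. (If `x` is ramified to orders divisible by a common denominator of the
exponents over the singular points, the pull-back of the system is, up to a twist by a connection of rank
one, a flat bundle without singularities, so `C` may be a proper curve of any large genus.)

Proof. If the `p`-curvature of `E` vanishes at `𝔪`, that of the system vanishes at `𝔪`, for almost all `𝔪`
(`R927/PB2`), so our theorem on systems (the starting result `MP_ba03d2_ag.StableDensity`) applies.
-/

namespace Pool.Agent.Results.MP_0707f5_ag.PullbackStableDichotomy

universe u v w

/-- For every rank `r` and every number `n` of finite singular points there are `ε > 0` and a finite set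
`𝒟` of torsion cosets of the torus of exponents, all of whose points are the weights of semistable
parabolic bundles of parabolic degree zero on the projective line over `ℂ`, with the following property.

Let `R` be a domain of characteristic zero, of finite type over `ℤ`, let `F` be a field containing
`R` (the function field of a curve) with an `R`-linear derivation `δ` and `δ x = 1`, let `V` be a vector
space over `F` with a connection `∇`, let `T ∈ R[x]` be nonzero and let `E ⊆ V` be a finitely generated
`R[x, 1/T]`-module which is stable under `∇` and generates `V` over the rational functions of `x`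
(`IsModel`; a flat bundle on the part `T ≠ 0` of the curve, spread out over `Spec R`). Assume that `V`
contains the pull-back (`HasPullback`) of the system `d/dx - ∑ j, A j / (x - α j)` of rank `r`, where
`α 0, ..., α (n - 1)` are elements of `R` with invertible differences, and that this system has rational
exponents `lam j l` (eigenvalues of `A j`) and `phi l` (eigenvalues of `∑ j, A j`), with common
denominator `N`.

(a) Either the exponents are on one of the cosets in `𝒟` and all their multiples by integers prime to
`N` are the weights of semistable parabolic bundles of parabolic degree zero; or there are a set of at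
least `ε * φ(N)` residue classes modulo `N`, prime to `N`, and a nonzero `g` in `R` such that the
`p`-curvature of `E` is nonzero at all the closed points of `Spec R[1/g]` whose residue characteristic is
a large prime in one of these classes (`BadModelClasses`), and (H) fails for `(E, ∇)`.

(b) If the system is irreducible over every field containing `R`, then either all the multiples of the
exponents by integers prime to `N` are the weights of stable parabolic bundles of parabolic degree zero;
or the second alternative of (a) holds. -/
theorem result (n r : ℕ) :
    ∃ (ε : ℝ) (𝒟 : Finset (AddSubgroup (ExponentIndex n r → ℤ) × (ExponentIndex n r → ℚ))),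
      0 < ε ∧
      (∀ C ∈ 𝒟, ∀ z : ExponentIndex n r → ℝ, InCoset C.1 C.2 z →
        SemistableWeights ℂ (fun j l => z (Sum.inl (j, l))) (fun l => z (Sum.inr l))) ∧
      ∀ (R : Type u) [CommRing R] [IsDomain R] [CharZero R] [Algebra.FiniteType ℤ R]
        (F : Type v) [Field F] [Algebra R F] (δ : Derivation R F F) (x : F)
        (V : Type w) [AddCommGroup V] [Module F V] (nabla : V →+ V) (T : R[X])
        (E : Submodule (CoordRing x T R) V) (α : Fin n → R)
        (A : Fin n → Matrix (Fin r) (Fin r) R) (v : Fin r → V)
        (lam : Fin n → Fin r → ℚ) (phi : Fin r → ℚ) (N : ℕ),
        Function.Injective (algebraMap R F) → δ x = 1 → T ≠ 0 → IsModel x T nabla E →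
        HasPullback α A δ x nabla v →
        (∀ i j, i ≠ j → IsUnit (α i - α j)) →
        (∀ j, HasExponents (A j) (lam j)) → HasExponents (∑ j, A j) phi →
        0 < N → (∀ j l, ∃ m : ℤ, (N : ℚ) * lam j l = m) → (∀ l, ∃ m : ℤ, (N : ℚ) * phi l = m) →
        (((∃ C ∈ 𝒟, InCoset C.1 C.2 (fun i => ((Sum.elim (fun p => lam p.1 p.2) phi i : ℚ) : ℝ))) ∧
          ∀ a : ℤ, IsCoprime a (N : ℤ) →
            SemistableWeights ℂ (fun j l => (a : ℝ) * lam j l) (fun l => (a : ℝ) * phi l)) ∨
          (BadModelClasses nabla E N ε ∧ ¬ HypH nabla E)) ∧
        (AbsIrreducible α A →
          (∀ a : ℤ, IsCoprime a (N : ℤ) →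
            StableWeights ℂ (fun j l => (a : ℝ) * lam j l) (fun l => (a : ℝ) * phi l)) ∨
          (BadModelClasses nabla E N ε ∧ ¬ HypH nabla E)) := by
  obtain ⟨ε, 𝒟, hε, h𝒟, h⟩ := uniform.{u} n r
  refine ⟨ε, 𝒟, hε, h𝒟, ?_⟩
  intro R _ _ _ _ F _ _ δ x V _ _ nabla T E α A v lam phi N hRF hx hT hE hpb hα hlam hphi hN hNlam
    hNphi
  obtain ⟨h1, h2⟩ := h R α A lam phi N hα hlam hphi hN hNlam hNphi
  exact ⟨pull_one hpb hRF hx hT hE h1, fun hA => pull hpb hRF hx hT hE (h2 hA)⟩

end Pool.Agent.Results.MP_0707f5_ag.PullbackStableDichotomy
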