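import Pool.Agent.N858.PB.Pull
import Pool.Agent.Y227.UD.Final

set_option autoImplicit false

open Polynomial Pool.Agent.W432.PC Pool.Agent.W432.TC Pool.Agent.TH571.GP
open Pool.Agent.W77.IM (CoordRing)
open Pool.Agent.R927 Pool.Agent.N858.PB

/-!
# Flat bundles on curves which contain a pull-back: outside of cosets with `r + 1` relations

Let `C` be a curve over a finitely generated field of characteristic zero with a finite map
`x : C → ℙ¹`, and let `(E, ∇)` be a flat bundle on `C` (or on an open part of `C`) whose generic fibre
contains the pull-back of any Fuchsian system `d/dx - ∑ j, A j / (x - α j)` on `ℙ¹` of rank `r` with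
`n + 1` singular points and rational exponents. The theorem says that, unless the system has a full set
of algebraic solutions (so that its pull-back has a full set of algebraic sections), (H) fails for
`(E, ∇)`, with an explicit kind of primes of bad reduction and a density bounded below in terms of `n`
and `r` only, if the exponents are outside of finitely many torsion cosets with at least `r + 1`
independent relations, and also on these cosets if some conjugate of the exponents violates the Weyl
inequalities. (If `x` is ramified to orders divisible by a common denominator of the exponents over the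
singular points, the pull-back of the system is, up to a twist by a connection of rank one, a flat
bundle without singularities, so `C` may be a proper curve of any large genus.)

Proof. If the `p`-curvature of `E` vanishes at `𝔪`, that of the system vanishes at `𝔪`, for almost all `𝔪`
(`R927/PB2`), so our theorem on systems (the starting result `MP_ba03d2_ag.UniformDensity`) applies.
-/

namespace Pool.Agent.Results.MP_0707f5_ag.PullbackUniformDensity

universe u v w

/-- For every rank `r` and every number `n ≥ 2` of finite singular points there are `ε > 0` and a
finite set `𝒟` of torsion cosets in the torus of exponents, each with at least `r + 1` independent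
integral relations, with the following property.

Let `R` be a domain of characteristic zero, of finite type over `ℤ`, let `F` be a field containing
`R` (the function field of a curve) with an `R`-linear derivation `δ` and `δ x = 1`, let `V` be a vector
space over `F` with a connection `∇`, let `T ∈ R[x]` be nonzero and let `E ⊆ V` be a finitely generated
`R[x, 1/T]`-module which is stable under `∇` and generates `V` over the rational functions of `x`
(`IsModel`; a flat bundle on the part `T ≠ 0` of the curve, spread out over `Spec R`). Assume that `V`
contains the pull-back (`HasPullback`) of the system `d/dx - ∑ j, A j / (x - α j)` of rank `r`, where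
`α 0, ..., α (n - 1)` are elements of `R` with invertible differences, and that this system has rational
exponents `lam j l` (eigenvalues of `A j`) and `phi l` (eigenvalues of `∑ j, A j`), with common
denominator `N`. Then one of the following holds:

* the system has a fundamental matrix of algebraic solutions, with columns
  `∏ j, (x - α j) ^ (ν j) * (polynomials)`, `ν j` rational;
* there are a set of at least `ε * φ(N)` residue classes modulo `N`, prime to `N`, and a nonzero `g` in
  `R` such that the `p`-curvature of `E` is nonzero at all the closed points of `Spec R[1/g]` whose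
  residue characteristic is a large prime in one of these classes (`BadModelClasses`), and (H) fails for
  `(E, ∇)`;
* the exponents are on one of the cosets in `𝒟`, and all their multiples by integers `a` prime to
  `N` satisfy the Weyl inequalities, together with their negatives. -/
theorem result (n r : ℕ) (hn : 2 ≤ n) :
    ∃ (ε : ℝ) (𝒟 : Finset (AddSubgroup (ExponentIndex n r → ℤ) × (ExponentIndex n r → ℚ))),
      0 < ε ∧ (∀ C ∈ 𝒟, ∃ m : Fin (r + 1) → ExponentIndex n r → ℤ,
        LinearIndependent ℤ m ∧ ∀ k, m k ∈ C.1) ∧
      ∀ (R : Type u) [CommRing R] [IsDomain R] [CharZero R] [Algebra.FiniteType ℤ R]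
        (F : Type v) [Field F] [Algebra R F] (δ : Derivation R F F) (x : F)
        (V : Type w) [AddCommGroup V] [Module F V] (nabla : V →+ V) (T : R[X])
        (E : Submodule (CoordRing x T R) V) (α : Fin n → R)
        (A : Fin n → Matrix (Fin r) (Fin r) R) (v : Fin r → V)
        (lam : Fin n → Fin r → ℚ) (phi : Fin r → ℚ) (N : ℕ),
        Function.Injective (algebraMap R F) → δ x = 1 → T ≠ 0 → IsModel x T nabla E →
        HasPullback α A δ x nabla v →
        (∀ i j, i ≠ j → IsUnit (α i - α j)) →
        (∀ j, HasExponents (A j) (lam j)) → HasExponents (∑ j, A j) phi →
        0 < N → (∀ j l, ∃ m : ℤ, (N : ℚ) * lam j l = m) → (∀ l, ∃ m : ℤ, (N : ℚ) * phi l = m) →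
        HasAlgebraicSolutions α A ∨ (BadModelClasses nabla E N ε ∧ ¬ HypH nabla E) ∨
          ((∃ C ∈ 𝒟, InCoset C.1 C.2 (fun i => ((Sum.elim (fun p => lam p.1 p.2) phi i : ℚ) : ℝ))) ∧
            ∀ a : ℤ, IsCoprime a (N : ℤ) → WeylBoth (fun i => (a : ℝ) *
              ((Sum.elim (fun p => lam p.1 p.2) phi : ExponentIndex n r → ℚ) i : ℚ))) := by
  obtain ⟨ε, 𝒟, hε, h𝒟, h⟩ := Pool.Agent.Y227.UD.final.{u} n r hn
  refine ⟨ε, 𝒟, hε, h𝒟, ?_⟩
  intro R _ _ _ _ F _ _ δ x V _ _ nabla T E α A v lam phi N hRF hx hT hE hpb hα hlam hphi hN hNlam
    hNphi
  rcases h R α A lam phi N hα hlam hphi hN hNlam hNphi with h1 | ⟨⟨S, g, P₀, hS, hg, h1⟩, h2⟩ | h1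
  · exact Or.inl h1
  · refine Or.inr (Or.inl ⟨badModelClasses hpb hRF hx hT hE hg ⟨S, P₀, hS, h1⟩,
      fun hH => h2 (hpb.condII hRF hx hT hE hH)⟩)
  · exact Or.inr (Or.inr h1)

end Pool.Agent.Results.MP_0707f5_ag.PullbackUniformDensity
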